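import Pool.Agent.H194R3.Cartan.Defs

set_option autoImplicit false

/-!
# Flat holomorphic Cartan geometries and `(G, X)`-structures: definitions

Complex manifolds, Kähler forms, complex homogeneous spaces and holomorphic Cartan geometries are
those of `Pool.Agent.H194R3.Cartan.Defs`.
-/

open scoped Manifold ContDiff Topology
open Set Pool.Agent.H194R3.Cartan

namespace Pool.Agent.W490.Flat

section Form

variable {𝔢 : Type} [NormedAddCommGroup 𝔢] [NormedSpace ℂ 𝔢]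
  {E : Type} [TopologicalSpace E] [ChartedSpace 𝔢 E]
  {𝔤 : Type} [NormedAddCommGroup 𝔤] [NormedSpace ℂ 𝔤]

/-- The 1-form `η` on the complex manifold `E` with values in the vector space `𝔤`, written in the
preferred chart `φ` at `p`: at the point `y` of `𝔢` it is the pull-back of `η` by `φ⁻¹`. -/
noncomputable def oneFormInChart (η : (e : E) → TangentSpace 𝓘(ℂ, 𝔢) e →L[ℂ] 𝔤) (p : E) (y : 𝔢) :
    𝔢 →L[ℂ] 𝔤 :=
  let b : 𝔢 →L[ℂ] 𝔤 := η ((extChartAt 𝓘(ℂ, 𝔢) p).symm y)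
  let D : 𝔢 →L[ℂ] 𝔢 := mfderiv 𝓘(ℂ, 𝔢) 𝓘(ℂ, 𝔢) (extChartAt 𝓘(ℂ, 𝔢) p).symm y
  b.comp D

end Form

section Flat

variable {𝔤 : Type} [NormedAddCommGroup 𝔤] [NormedSpace ℂ 𝔤]
  {G : Type} [TopologicalSpace G] [ChartedSpace 𝔤 G] [Group G]
  {𝔥 : Type} [NormedAddCommGroup 𝔥] [NormedSpace ℂ 𝔥]
  {H : Type} [TopologicalSpace H] [ChartedSpace 𝔥 H] [Group H]
  {𝔪 : Type} [NormedAddCommGroup 𝔪] [NormedSpace ℂ 𝔪]
  {M : Type} [TopologicalSpace M] [ChartedSpace 𝔪 M]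
  {𝔢 : Type} [NormedAddCommGroup 𝔢] [NormedSpace ℂ 𝔢]
  {E : Type} [TopologicalSpace E] [ChartedSpace 𝔢 E] [IsManifold 𝓘(ℂ, 𝔢) ω E]
  {ι : H →* G}

/-- The Cartan geometry `C` is flat: its curvature `dω + ½ [ω, ω]`, where `ω` is the Cartan
connection, vanishes identically. In a chart of the total space the value of the curvature on the
vectors `a` and `b` is `(D_a ω)(b) - (D_b ω)(a) + ⁅ω a, ω b⁆`; the bracket is that of the Lie algebra
of `G` (the bracket of left invariant vector fields). -/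
def IsFlat (C : CartanGeometry 𝔤 𝔥 𝔪 M 𝔢 E ι) : Prop :=
  ∀ p : E, ∀ y ∈ (extChartAt 𝓘(ℂ, 𝔢) p).target, ∀ a b : 𝔢,
    let Ω : 𝔢 → 𝔢 →L[ℂ] 𝔤 := oneFormInChart (𝔤 := 𝔤) C.form p
    let ωa : LieAlg 𝔤 G := Ω y a
    let ωb : LieAlg 𝔤 G := Ω y b
    let bracket : 𝔤 := (⁅ωa, ωb⁆ : LieAlg 𝔤 G)
    fderiv ℂ Ω y a b - fderiv ℂ Ω y b a + bracket = 0

end Flat

section GX

variable (G : Type) [Group G]
  (𝔵 : Type) [NormedAddCommGroup 𝔵] [NormedSpace ℂ 𝔵]
  (X : Type) [TopologicalSpace X] [ChartedSpace 𝔵 X] [MulAction G X]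
  (𝔪 : Type) [NormedAddCommGroup 𝔪] [NormedSpace ℂ 𝔪]
  (M : Type) [TopologicalSpace M] [ChartedSpace 𝔪 M]

/-- A holomorphic `(G, X)`-structure on the complex manifold `M`: an atlas of charts with values in
open subsets of `X` which are biholomorphic onto their images, such that the changes of charts are
locally given by the action of elements of `G`. -/
structure GXStructure where
  /-- the charts: pairs of an open subset of `M` and a map defined on it -/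
  charts : Set (Set M × (M → X))
  isOpen : ∀ c ∈ charts, IsOpen c.1
  cover : ∀ m : M, ∃ c ∈ charts, m ∈ c.1
  injOn : ∀ c ∈ charts, InjOn c.2 c.1
  biholomorphic : ∀ c ∈ charts, IsLocalDiffeomorphOn 𝓘(ℂ, 𝔪) 𝓘(ℂ, 𝔵) ω c.2 c.1
  transition : ∀ c ∈ charts, ∀ d ∈ charts, ∀ m ∈ c.1 ∩ d.1,
    ∃ g : G, ∀ᶠ x in 𝓝 m, d.2 x = g • c.2 x

end GX

/-- The assertion of the question in the special case that `G` is connected and the homogeneous
space `X = G/H` is simply connected, and with a weaker conclusion: if `M` is a compact connected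
Kähler manifold which carries a holomorphic Cartan geometry modelled on `X = G/H`, where
`dim M = dim X`, then `M` carries a flat holomorphic Cartan geometry modelled on `G/H` or a
holomorphic `(G, X)`-structure. -/
def Assertion : Prop :=
  ∀ (𝔤 : Type) [NormedAddCommGroup 𝔤] [NormedSpace ℂ 𝔤] [FiniteDimensional ℂ 𝔤]
    (G : Type) [TopologicalSpace G] [T2Space G] [SecondCountableTopology G] [ConnectedSpace G]
    [ChartedSpace 𝔤 G] [Group G] [LieGroup 𝓘(ℂ, 𝔤) ω G]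
    (𝔥 : Type) [NormedAddCommGroup 𝔥] [NormedSpace ℂ 𝔥] [FiniteDimensional ℂ 𝔥]
    (H : Type) [TopologicalSpace H] [T2Space H] [SecondCountableTopology H]
    [ChartedSpace 𝔥 H] [Group H] [LieGroup 𝓘(ℂ, 𝔥) ω H]
    (ι : H →* G)
    (𝔵 : Type) [NormedAddCommGroup 𝔵] [NormedSpace ℂ 𝔵] [FiniteDimensional ℂ 𝔵]
    (X : Type) [TopologicalSpace X] [T2Space X] [SecondCountableTopology X]
    [SimplyConnectedSpace X] [ChartedSpace 𝔵 X] [IsManifold 𝓘(ℂ, 𝔵) ω X] [MulAction G X] (x₀ : X)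
    (𝔪 : Type) [NormedAddCommGroup 𝔪] [NormedSpace ℂ 𝔪] [FiniteDimensional ℂ 𝔪]
    (M : Type) [TopologicalSpace M] [T2Space M] [SecondCountableTopology M]
    [CompactSpace M] [ConnectedSpace M] [ChartedSpace 𝔪 M] [IsManifold 𝓘(ℂ, 𝔪) ω M],
    IsClosedComplexSubgroup 𝔤 𝔥 ι →
    IsHomogeneousSpace 𝔤 𝔵 ι x₀ →
    Nonempty (KahlerForm 𝔪 M) →
    Module.finrank ℂ 𝔪 = Module.finrank ℂ 𝔵 →
    (∃ (𝔢 : Type) (_ : NormedAddCommGroup 𝔢) (_ : NormedSpace ℂ 𝔢) (_ : FiniteDimensional ℂ 𝔢)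
      (E : Type) (_ : TopologicalSpace E) (_ : T2Space E) (_ : SecondCountableTopology E)
      (_ : ChartedSpace 𝔢 E) (_ : IsManifold 𝓘(ℂ, 𝔢) ω E),
      Nonempty (CartanGeometry 𝔤 𝔥 𝔪 M 𝔢 E ι)) →
    (∃ (𝔢 : Type) (_ : NormedAddCommGroup 𝔢) (_ : NormedSpace ℂ 𝔢) (_ : FiniteDimensional ℂ 𝔢)
      (E : Type) (_ : TopologicalSpace E) (_ : T2Space E) (_ : SecondCountableTopology E)
      (_ : ChartedSpace 𝔢 E) (_ : IsManifold 𝓘(ℂ, 𝔢) ω E)
      (C : CartanGeometry 𝔤 𝔥 𝔪 M 𝔢 E ι), IsFlat C) ∨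
    Nonempty (GXStructure G 𝔵 X 𝔪 M)

end Pool.Agent.W490.Flat
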