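import Pool.Agent.W490.Flat.Defs
import Pool.Agent.H194R3.Cartan.Torus

set_option autoImplicit false

/-! # Holomorphic 1-forms in charts -/

open scoped Manifold ContDiff Topology
open Set Pool.Agent.H194R3.Cartan

namespace Pool.Agent.W490.Flat

section Form

variable {𝔢 : Type} [NormedAddCommGroup 𝔢] [NormedSpace ℂ 𝔢]
  {E : Type} [TopologicalSpace E] [ChartedSpace 𝔢 E] [IsManifold 𝓘(ℂ, 𝔢) ω E]
  {𝔤 : Type} [NormedAddCommGroup 𝔤] [NormedSpace ℂ 𝔤]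

/-- A holomorphic 1-form is holomorphic in charts. -/
lemma contDiffOn_oneFormInChart [FiniteDimensional ℂ 𝔢]
    (η : (e : E) → TangentSpace 𝓘(ℂ, 𝔢) e →L[ℂ] 𝔤)
    (hη : ContMDiff 𝓘(ℂ, 𝔢).tangent 𝓘(ℂ, 𝔤) ω (fun v : TangentBundle 𝓘(ℂ, 𝔢) E => η v.1 v.2))
    (p : E) :
    ContDiffOn ℂ ω (oneFormInChart η p) (extChartAt 𝓘(ℂ, 𝔢) p).target := by
  rw [contDiffOn_clm_apply]
  intro b
  rw [← contMDiffOn_iff_contDiffOn]
  have hopen : IsOpen (extChartAt 𝓘(ℂ, 𝔢) p).target := isOpen_extChartAt_target p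
  have h1 : ContMDiffOn 𝓘(ℂ, 𝔢) 𝓘(ℂ, 𝔢) ω (extChartAt 𝓘(ℂ, 𝔢) p).symm
      (extChartAt 𝓘(ℂ, 𝔢) p).target := contMDiffOn_extChartAt_symm p
  have h2 := h1.contMDiffOn_tangentMapWithin (m := ω) (by simp) hopen.uniqueMDiffOn
  have h3 : ContMDiffOn 𝓘(ℂ, 𝔢) 𝓘(ℂ, 𝔢).tangent ω
      (fun y : 𝔢 => (⟨y, b⟩ : TangentBundle 𝓘(ℂ, 𝔢) 𝔢)) (extChartAt 𝓘(ℂ, 𝔢) p).target := by
    apply contMDiffOn_vectorSpace_iff_contDiffOn.2
    exact contDiffOn_const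
  have h4 := h2.comp h3 (fun y hy => hy)
  have h5 := hη.comp_contMDiffOn h4
  refine h5.congr ?_
  intro y hy
  simp only [Function.comp_def, tangentMapWithin, oneFormInChart]
  rw [mfderivWithin_of_isOpen hopen hy]
  rfl

end Form

end Pool.Agent.W490.Flat
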