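import Pool.Agent.W490.Flat.NoGX
import Pool.Agent.H194R3.Cartan.Main

set_option autoImplicit false

/-! # The counterexample -/

open scoped Manifold ContDiff Topology
open Set Pool.Agent.H194R3.Cartan VectorField

namespace Pool.Agent.W490.Flat

lemma mulInvariantVectorField_affG (v : LieAlg (ℂ × ℂ) AffG) (g : AffG) :
    (mulInvariantVectorField v g : ℂ × ℂ) =
      ((v : ℂ × ℂ).1, Complex.exp (g : ℂ × ℂ).1 * (v : ℂ × ℂ).2) := by
  have h1 : HasFDerivAt (fun p : ℂ × ℂ =>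
      (((g : ℂ × ℂ).1 + p.1, (g : ℂ × ℂ).2 + Complex.exp (g : ℂ × ℂ).1 * p.2) : ℂ × ℂ))
      ((ContinuousLinearMap.fst ℂ ℂ ℂ).prod
        (Complex.exp (g : ℂ × ℂ).1 • ContinuousLinearMap.snd ℂ ℂ ℂ)) (0, 0) := by
    apply HasFDerivAt.prodMk
    · exact hasFDerivAt_fst.const_add _
    · exact (hasFDerivAt_snd.const_mul _).const_add _
  have h2 : mfderiv 𝓘(ℂ, ℂ × ℂ) 𝓘(ℂ, ℂ × ℂ) (fun p : AffG => g * p) (1 : AffG) =
      ((ContinuousLinearMap.fst ℂ ℂ ℂ).prod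
        (Complex.exp (g : ℂ × ℂ).1 • ContinuousLinearMap.snd ℂ ℂ ℂ)) :=
    h1.hasMFDerivAt.mfderiv
  have h3 : (mulInvariantVectorField v g : ℂ × ℂ) =
      (mfderiv 𝓘(ℂ, ℂ × ℂ) 𝓘(ℂ, ℂ × ℂ) (fun p : AffG => g * p) (1 : AffG)) v := rfl
  rw [h3, h2]
  rfl

/-- a vector of the Lie algebra -/
noncomputable def vec1 : LieAlg (ℂ × ℂ) AffG := ((1, 0) : ℂ × ℂ)
/-- a vector of the Lie algebra -/
noncomputable def vec2 : LieAlg (ℂ × ℂ) AffG := ((0, 1) : ℂ × ℂ)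

lemma mlieBracket_eq_lieBracket (A B : (x : ℂ × ℂ) → TangentSpace 𝓘(ℂ, ℂ × ℂ) x) (x : ℂ × ℂ) :
    mlieBracket (M := ℂ × ℂ) 𝓘(ℂ, ℂ × ℂ) A B x =
      lieBracket ℂ (A : ℂ × ℂ → ℂ × ℂ) (B : ℂ × ℂ → ℂ × ℂ) x := by
  have h := mlieBracketWithin_eq_lieBracketWithin (V := A) (W := B) (s := univ)
  rw [mlieBracketWithin_univ] at h
  rw [h]
  exact congrFun (lieBracketWithin_univ (𝕜 := ℂ) (V := (A : ℂ × ℂ → ℂ × ℂ))
    (W := (B : ℂ × ℂ → ℂ × ℂ))) x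

/-- The Lie algebra of the affine group is not abelian. -/
lemma bracket_affG : ⁅vec1, vec2⁆ ≠ 0 := by
  rw [GroupLieAlgebra.bracket_def]
  have e1 : mulInvariantVectorField vec1 = (fun g : AffG => ((1, 0) : ℂ × ℂ)) := by
    funext g
    rw [mulInvariantVectorField_affG]
    simp [vec1]
  have e2 : mulInvariantVectorField vec2 =
      (fun g : AffG => ((0, Complex.exp (g : ℂ × ℂ).1) : ℂ × ℂ)) := by
    funext g
    rw [mulInvariantVectorField_affG]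
    simp [vec2]
  rw [e1, e2]
  intro h
  have h1 : lieBracket ℂ (fun g : ℂ × ℂ => ((1, 0) : ℂ × ℂ))
      (fun g : ℂ × ℂ => ((0, Complex.exp g.1) : ℂ × ℂ)) ((0, 0) : ℂ × ℂ) = (0 : ℂ × ℂ) :=
    (mlieBracket_eq_lieBracket _ _ _).symm.trans h
  simp only [lieBracket_eq] at h1
  have h0 : HasFDerivAt (fun g : ℂ × ℂ => g.1) (ContinuousLinearMap.fst ℂ ℂ ℂ)
      ((0, 0) : ℂ × ℂ) := hasFDerivAt_fst
  have h2 : HasFDerivAt (fun g : ℂ × ℂ => ((0, Complex.exp g.1) : ℂ × ℂ))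
      ((0 : ℂ × ℂ →L[ℂ] ℂ).prod (Complex.exp (0 : ℂ) • ContinuousLinearMap.fst ℂ ℂ ℂ)) (0, 0) := by
    apply HasFDerivAt.prodMk
    · exact hasFDerivAt_const _ _
    · exact h0.cexp
  rw [h2.fderiv] at h1
  have h3 := congrArg Prod.snd h1
  simp at h3

theorem not_assertion : ¬ Assertion := by
  intro h
  let bb := Module.finBasis ℝ (ℂ × ℂ)
  let Λ := (Submodule.span ℤ (Set.range bb)).toAddSubgroup
  have hcpt : CompactSpace (Torus Λ) := compactSpace_torus bb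
  rcases h (ℂ × ℂ) AffG PUnit PUnit trivialHom (ℂ × ℂ) AffG 1 (ℂ × ℂ) (Torus Λ)
    isClosedComplexSubgroup_trivial isHomogeneousSpace_affG ⟨kahlerTorus Λ⟩ rfl
    ⟨ℂ × ℂ, inferInstance, inferInstance, inferInstance, Torus Λ, inferInstance, inferInstance,
      inferInstance, inferInstance, inferInstance, ⟨cartanTorus Λ⟩⟩ with h1 | h1
  · obtain ⟨𝔢, i1, i2, i3, E, i4, i5, i6, i7, i8, C, hC⟩ := h1
    exact bracket_affG (bracket_eq_zero_of_flat rfl C hC _ _)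
  · exact (no_gxStructure (Λ := Λ)).false h1.some

end Pool.Agent.W490.Flat
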