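import Pool.Agent.W490.Flat.Form

set_option autoImplicit false
set_option linter.unusedSectionVars false

/-! # Flat Cartan geometries with trivial structure group on complex tori -/

open scoped Manifold ContDiff Topology
open Set Pool.Agent.H194R3.Cartan

namespace Pool.Agent.W490.Flat

section Torus

variable {V : Type} [NormedAddCommGroup V] [NormedSpace ℂ V] (Λ : AddSubgroup V)
  [DiscreteTopology Λ]

lemma contMDiff_proj : ContMDiff 𝓘(ℂ, V) 𝓘(ℂ, V) ω (Torus.proj Λ) := by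
  intro v
  obtain ⟨w, hw⟩ := Torus.key Λ (chart_mem_atlas V (Torus.proj Λ v))
    (mem_chart_source V (Torus.proj Λ v))
  set e := chartAt V (Torus.proj Λ v) with he
  have hv : e (Torus.proj Λ v) = v + w := hw.self_of_nhds
  have hmem : v + w ∈ e.target := by
    rw [← hv]
    exact e.map_source (mem_chart_source V _)
  have h1 : ∀ᶠ u in 𝓝 v, Torus.proj Λ u = e.symm (u + w) := by
    have hs : ∀ᶠ u in 𝓝 v, Torus.proj Λ u ∈ e.source :=
      (Torus.continuous_proj Λ).continuousAt.preimage_mem_nhds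
        (e.open_source.mem_nhds (mem_chart_source V _))
    filter_upwards [hw, hs] with u hu hu2
    rw [← hu, e.left_inv hu2]
  have h2 : ContMDiffAt 𝓘(ℂ, V) 𝓘(ℂ, V) ω e.symm (v + w) :=
    (contMDiffOn_chart_symm (x := Torus.proj Λ v)).contMDiffAt (e.open_target.mem_nhds hmem)
  have h3 : ContMDiffAt 𝓘(ℂ, V) 𝓘(ℂ, V) ω (fun u : V => u + w) v :=
    (contDiff_id.add contDiff_const).contMDiff.contMDiffAt
  have h4 := ContMDiffAt.comp (g := e.symm) (f := fun u : V => u + w) v h2 h3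
  exact h4.congr_of_eventuallyEq h1

lemma mfderiv_proj (v : V) :
    mfderiv 𝓘(ℂ, V) 𝓘(ℂ, V) (Torus.proj Λ) v = ContinuousLinearMap.id ℂ V :=
  (Torus.hasMFDerivAt_proj Λ v).mfderiv

/-- A holomorphic function on `V` which is periodic with respect to a cocompact subgroup is
constant. -/
lemma const_of_periodic [CompactSpace (Torus Λ)] {W : Type} [NormedAddCommGroup W]
    [NormedSpace ℂ W] {f : V → W} (hf : Differentiable ℂ f)
    (hp : ∀ v, ∀ l ∈ Λ, f (v + l) = f v) (u v : V) : f u = f v := by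
  apply hf.apply_eq_apply_of_bounded
  let g : Torus Λ → W := fun q => f (Torus.sec Λ q)
  have hg : ∀ v, g (Torus.proj Λ v) = f v := by
    intro v
    have h1 : Torus.proj Λ (Torus.sec Λ (Torus.proj Λ v)) = Torus.proj Λ v :=
      Torus.proj_sec Λ _
    rw [Torus.proj_eq_iff] at h1
    have h2 := hp (Torus.sec Λ (Torus.proj Λ v)) _ h1
    rw [add_sub_cancel] at h2
    exact h2.symm
  have hq : Topology.IsQuotientMap (Torus.proj Λ) :=
    (Torus.isLocalHomeomorph Λ).isOpenMap.isQuotientMap (Torus.continuous_proj Λ)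
      (Torus.proj_surjective Λ)
  have hgc : Continuous g := by
    rw [hq.continuous_iff]
    have : g ∘ Torus.proj Λ = f := by
      ext v; exact hg v
    rw [this]
    exact hf.continuous
  have h3 : range f = range g := by
    rw [← (Torus.proj_surjective Λ).range_comp g]
    congr 1
    ext v; exact (hg v).symm
  rw [h3]
  exact (isCompact_range hgc).isBounded

end Torus

section Main

variable {𝔤 : Type} [NormedAddCommGroup 𝔤] [NormedSpace ℂ 𝔤] [FiniteDimensional ℂ 𝔤]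
  {G : Type} [TopologicalSpace G] [ChartedSpace 𝔤 G] [Group G]
  {𝔢 : Type} [NormedAddCommGroup 𝔢] [NormedSpace ℂ 𝔢] [FiniteDimensional ℂ 𝔢]
  {E : Type} [TopologicalSpace E] [ChartedSpace 𝔢 E] [IsManifold 𝓘(ℂ, 𝔢) ω E]
  {ι : PUnit →* G}
  {V : Type} [NormedAddCommGroup V] [NormedSpace ℂ V] [FiniteDimensional ℂ V]
  {Λ : AddSubgroup V} [DiscreteTopology Λ]

/-- The section of a principal bundle with trivial structure group. -/
lemma exists_section (C : CartanGeometry 𝔤 PUnit V (Torus Λ) 𝔢 E ι) :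
    ∃ s : Torus Λ → E, (∀ m, C.π (s m) = m) ∧ ContMDiff 𝓘(ℂ, V) 𝓘(ℂ, 𝔢) ω s := by
  have hinj : ∀ e e' : E, C.π e = C.π e' → e = e' := by
    intro e e' h
    obtain ⟨U, φ, hU, hm, hsrc, htgt, hφ, hφ', hπ, hact⟩ := C.locally_trivial (C.π e)
    have h1 : e ∈ φ.target := by rw [htgt]; exact hm
    have h2 : e' ∈ φ.target := by rw [htgt]; simpa [← h] using hm
    have h3 : φ.symm e ∈ φ.source := φ.map_target h1
    have h4 : φ.symm e' ∈ φ.source := φ.map_target h2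
    have h5 : φ (φ.symm e) = e := φ.right_inv h1
    have h6 : φ (φ.symm e') = e' := φ.right_inv h2
    rw [hsrc] at h3 h4
    have h7 : (φ.symm e).1 = C.π e := by
      rw [← hπ (φ.symm e).1 h3.1 (φ.symm e).2]
      exact congrArg C.π h5
    have h8 : (φ.symm e').1 = C.π e' := by
      rw [← hπ (φ.symm e').1 h4.1 (φ.symm e').2]
      exact congrArg C.π h6
    have h9 : φ.symm e = φ.symm e' := by
      apply Prod.ext
      · rw [h7, h8, h]
      · exact Subsingleton.elim _ _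
    rw [← h5, ← h6, h9]
  have hsurj : ∀ m : Torus Λ, ∃ e : E, C.π e = m := by
    intro m
    obtain ⟨U, φ, hU, hm, hsrc, htgt, hφ, hφ', hπ, hact⟩ := C.locally_trivial m
    exact ⟨φ (m, PUnit.unit), hπ m hm _⟩
  choose s hs using hsurj
  refine ⟨s, hs, ?_⟩
  intro m
  obtain ⟨U, φ, hU, hm, hsrc, htgt, hφ, hφ', hπ, hact⟩ := C.locally_trivial m
  have h1 : ∀ᶠ x in 𝓝 m, s x = φ (x, PUnit.unit) := by
    filter_upwards [hU.mem_nhds hm] with x hx
    apply hinj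
    rw [hs, hπ x hx]
  have h2 : ContMDiffAt (𝓘(ℂ, V).prod 𝓘(ℂ, PUnit)) 𝓘(ℂ, 𝔢) ω φ (m, PUnit.unit) := by
    apply hφ.contMDiffAt
    apply φ.open_source.mem_nhds
    rw [hsrc]
    exact ⟨hm, mem_univ _⟩
  have h3 : ContMDiffAt 𝓘(ℂ, V) (𝓘(ℂ, V).prod 𝓘(ℂ, PUnit)) ω
      (fun x : Torus Λ => (x, PUnit.unit)) m :=
    (contMDiff_id.prodMk contMDiff_const).contMDiffAt
  exact (ContMDiffAt.comp m h2 h3).congr_of_eventuallyEq h1

/-- The Lie algebra of a complex Lie group `G` is abelian, if some compact complex torus carries a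
flat holomorphic Cartan geometry modelled on `G` with trivial structure group. -/
theorem bracket_eq_zero_of_flat [CompactSpace (Torus Λ)]
    (hdim : Module.finrank ℂ V = Module.finrank ℂ 𝔤)
    (C : CartanGeometry 𝔤 PUnit V (Torus Λ) 𝔢 E ι) (hC : IsFlat C) (x y : LieAlg 𝔤 G) :
    ⁅x, y⁆ = 0 := by
  obtain ⟨s, hs, hsm⟩ := exists_section C
  let S : V → E := s ∘ Torus.proj Λ
  have hS : ContMDiff 𝓘(ℂ, V) 𝓘(ℂ, 𝔢) ω S := hsm.comp (contMDiff_proj Λ)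
  have hSd : MDifferentiable 𝓘(ℂ, V) 𝓘(ℂ, 𝔢) S := hS.mdifferentiable (by simp)
  -- the pulled back form
  let g : V → V → 𝔤 := fun w v => C.form (S v) (mfderiv 𝓘(ℂ, V) 𝓘(ℂ, 𝔢) S v w)
  have hgd : ∀ w, Differentiable ℂ (g w) := by
    intro w
    have h1 : ContMDiff 𝓘(ℂ, V) 𝓘(ℂ, V).tangent ω
        (fun v : V => (⟨v, w⟩ : TangentBundle 𝓘(ℂ, V) V)) := by
      rw [← contMDiffOn_univ]
      apply contMDiffOn_vectorSpace_iff_contDiffOn.2
      exact contDiffOn_const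
    have h2 := (hS.contMDiff_tangentMap (m := ω) (by simp)).comp h1
    have h3 : ContMDiff 𝓘(ℂ, V) 𝓘(ℂ, 𝔤) ω (g w) := C.form_holomorphic.comp h2
    exact (contMDiff_iff_contDiff.1 h3).differentiable (by simp)
  have hgp : ∀ w v, ∀ l ∈ Λ, g w (v + l) = g w v := by
    intro w v l hl
    have h1 : S (v + l) = S v := by
      simp only [S, Function.comp_apply]
      congr 1
      rw [Torus.proj_eq_iff]
      have : v - (v + l) = -l := by abel
      rw [this]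
      exact neg_mem hl
    have h2 : S ∘ (fun u => u + l) = S := by
      ext u
      simp only [S, Function.comp_apply]
      congr 1
      rw [Torus.proj_eq_iff]
      have : u - (u + l) = -l := by abel
      rw [this]
      exact neg_mem hl
    have h3 : HasMFDerivAt 𝓘(ℂ, V) 𝓘(ℂ, V) (fun u : V => u + l) v
        (ContinuousLinearMap.id ℂ V) := by
      have : HasFDerivAt (fun u : V => u + l) (ContinuousLinearMap.id ℂ V) v :=
        (hasFDerivAt_id v).add_const l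
      exact this.hasMFDerivAt
    have h4 : HasMFDerivAt 𝓘(ℂ, V) 𝓘(ℂ, 𝔢) S v
        ((mfderiv 𝓘(ℂ, V) 𝓘(ℂ, 𝔢) S (v + l)).comp (ContinuousLinearMap.id ℂ V)) := by
      have := HasMFDerivAt.comp v (hSd (v + l)).hasMFDerivAt h3
      rw [h2] at this
      exact this
    simp only [g]
    rw [h4.mfderiv]
    have h5 : ∀ e e' : E, e = e' → ∀ z : 𝔢, (C.form e : 𝔢 →L[ℂ] 𝔤) z = (C.form e' : 𝔢 →L[ℂ] 𝔤) z := by
      rintro e _ rfl z; rfl
    exact h5 _ _ h1 _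
  have hgc : ∀ w u v, g w u = g w v := fun w u v =>
    const_of_periodic Λ (hgd w) (hgp w) u v
  -- surjectivity
  have hbij : Function.Surjective (fun w => g w 0) := by
    let L1 : 𝔢 →L[ℂ] 𝔤 := C.form (S 0)
    let L2 : V →L[ℂ] 𝔢 := mfderiv 𝓘(ℂ, V) 𝓘(ℂ, 𝔢) S 0
    let L3 : V →L[ℂ] 𝔤 := L1.comp L2
    let L : V →ₗ[ℂ] 𝔤 := L3.toLinearMap
    have hL : Function.Injective L := by
      have h1 : C.π ∘ S = Torus.proj Λ := by
        ext v; exact hs _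
      have h2 : MDifferentiableAt 𝓘(ℂ, 𝔢) 𝓘(ℂ, V) C.π (S 0) :=
        C.π_holomorphic.mdifferentiable (by simp) _
      have h3 := mfderiv_comp (0 : V) h2 (hSd 0)
      rw [h1, mfderiv_proj] at h3
      have h4 : Function.Injective (mfderiv 𝓘(ℂ, V) 𝓘(ℂ, 𝔢) S 0) := by
        intro a b hab
        have h5 := congrArg (fun L : V →L[ℂ] V => L a) h3
        have h6 := congrArg (fun L : V →L[ℂ] V => L b) h3
        have h7 : a = (mfderiv 𝓘(ℂ, 𝔢) 𝓘(ℂ, V) C.π (S 0))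
            ((mfderiv 𝓘(ℂ, V) 𝓘(ℂ, 𝔢) S 0) a) := h5
        have h8 : b = (mfderiv 𝓘(ℂ, 𝔢) 𝓘(ℂ, V) C.π (S 0))
            ((mfderiv 𝓘(ℂ, V) 𝓘(ℂ, 𝔢) S 0) b) := h6
        rw [h7, h8, hab]
      exact (C.form_bijective (S 0)).1.comp h4
    have hL2 : Function.Surjective L :=
      (LinearMap.injective_iff_surjective_of_finrank_eq_finrank hdim).1 hL
    exact hL2
  obtain ⟨u, hu⟩ := hbij x
  obtain ⟨w, hw⟩ := hbij y
  -- the form in the chart at `S 0`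
  let p : E := S 0
  let ψ : E → 𝔢 := extChartAt 𝓘(ℂ, 𝔢) p
  let σ : V → 𝔢 := ψ ∘ S
  let Ω : 𝔢 → 𝔢 →L[ℂ] 𝔤 := oneFormInChart (𝔤 := 𝔤) C.form p
  have hsrc : ∀ᶠ v in 𝓝 (0 : V), S v ∈ (extChartAt 𝓘(ℂ, 𝔢) p).source :=
    hS.continuous.continuousAt.preimage_mem_nhds
      ((isOpen_extChartAt_source p).mem_nhds (mem_extChartAt_source p))
  have hσ : ContDiffAt ℂ ω σ 0 := by
    rw [← contMDiffAt_iff_contDiffAt]
    have h1 : ContMDiffAt 𝓘(ℂ, 𝔢) 𝓘(ℂ, 𝔢) ω ψ (S 0) :=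
      contMDiffAt_extChartAt
    exact ContMDiffAt.comp (0 : V) h1 (hS 0)
  have hΩ : ContDiffAt ℂ ω Ω (σ 0) := by
    apply (contDiffOn_oneFormInChart (𝔤 := 𝔤) C.form C.form_holomorphic p).contDiffAt
    exact (isOpen_extChartAt_target p).mem_nhds (mem_extChartAt_target p)
  have hform : ∀ z : V, ∀ᶠ v in 𝓝 (0 : V), Ω (σ v) (fderiv ℂ σ v z) = g z 0 := by
    intro z
    have hsrc2 : ∀ᶠ v in 𝓝 (0 : V), ∀ᶠ v' in 𝓝 v, S v' ∈ (extChartAt 𝓘(ℂ, 𝔢) p).source :=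
      hsrc.eventually_nhds
    filter_upwards [hsrc2] with v hv
    have hv0 : S v ∈ (extChartAt 𝓘(ℂ, 𝔢) p).source := hv.self_of_nhds
    have hvt : σ v ∈ (extChartAt 𝓘(ℂ, 𝔢) p).target := (extChartAt 𝓘(ℂ, 𝔢) p).map_source hv0
    have hinv : (extChartAt 𝓘(ℂ, 𝔢) p).symm (σ v) = S v :=
      (extChartAt 𝓘(ℂ, 𝔢) p).left_inv hv0
    have h1 : S =ᶠ[𝓝 v] (extChartAt 𝓘(ℂ, 𝔢) p).symm ∘ σ := by
      filter_upwards [hv] with v' hv'
      exact ((extChartAt 𝓘(ℂ, 𝔢) p).left_inv hv').symm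
    have h2 : MDifferentiableAt 𝓘(ℂ, 𝔢) 𝓘(ℂ, 𝔢) (extChartAt 𝓘(ℂ, 𝔢) p).symm (σ v) :=
      ((contMDiffOn_extChartAt_symm (n := ω) p).contMDiffAt
        ((isOpen_extChartAt_target p).mem_nhds hvt)).mdifferentiableAt (by simp)
    have hψ : ContMDiffAt 𝓘(ℂ, 𝔢) 𝓘(ℂ, 𝔢) ω ψ (S v) :=
      contMDiffAt_extChartAt' (by simpa using hv0)
    have h3 : MDifferentiableAt 𝓘(ℂ, V) 𝓘(ℂ, 𝔢) σ v :=
      (ContMDiffAt.comp v hψ (hS v)).mdifferentiableAt (by simp)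
    have h4 : mfderiv 𝓘(ℂ, V) 𝓘(ℂ, 𝔢) S v =
        (mfderiv 𝓘(ℂ, 𝔢) 𝓘(ℂ, 𝔢) (extChartAt 𝓘(ℂ, 𝔢) p).symm (σ v)).comp
          (mfderiv 𝓘(ℂ, V) 𝓘(ℂ, 𝔢) σ v) := by
      rw [h1.mfderiv_eq]
      exact mfderiv_comp v h2 h3
    rw [← hgc z v 0]
    simp only [Ω, oneFormInChart, g]
    rw [h4]
    have h5 : ∀ e e' : E, e = e' → ∀ z : 𝔢, (C.form e : 𝔢 →L[ℂ] 𝔤) z = (C.form e' : 𝔢 →L[ℂ] 𝔤) z := by
      rintro e _ rfl z; rfl
    rw [← mfderiv_eq_fderiv]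
    exact h5 _ _ hinv _
  -- differentiate
  have hσd : DifferentiableAt ℂ σ 0 := hσ.differentiableAt (by simp)
  have hσ2 : DifferentiableAt ℂ (fderiv ℂ σ) 0 :=
    (hσ.fderiv_right (m := 1) (by simp)).differentiableAt (by simp)
  have hΩd : DifferentiableAt ℂ Ω (σ 0) := hΩ.differentiableAt (by simp)
  have hderiv : ∀ a z : V, fderiv ℂ Ω (σ 0) (fderiv ℂ σ 0 a) (fderiv ℂ σ 0 z) +
      Ω (σ 0) (fderiv ℂ (fderiv ℂ σ) 0 a z) = 0 := by
    intro a z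
    have h1 : HasFDerivAt (fun v => Ω (σ v)) ((fderiv ℂ Ω (σ 0)).comp (fderiv ℂ σ 0)) 0 :=
      hΩd.hasFDerivAt.comp 0 hσd.hasFDerivAt
    have h2 : HasFDerivAt (fun v => fderiv ℂ σ v z)
        ((ContinuousLinearMap.apply ℂ 𝔢 z).comp (fderiv ℂ (fderiv ℂ σ) 0)) 0 :=
      (ContinuousLinearMap.apply ℂ 𝔢 z).hasFDerivAt.comp 0 hσ2.hasFDerivAt
    have h3 := h1.clm_apply h2
    have h4 : HasFDerivAt (fun v => Ω (σ v) (fderiv ℂ σ v z)) (0 : V →L[ℂ] 𝔤) 0 :=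
      (hasFDerivAt_const (g z 0) (0 : V)).congr_of_eventuallyEq (hform z)
    have h5 := congrArg (fun L : V →L[ℂ] 𝔤 => L a) (h3.unique h4)
    simp at h5
    rw [← h5]
    abel
  have hsymm : fderiv ℂ (fderiv ℂ σ) 0 u w = fderiv ℂ (fderiv ℂ σ) 0 w u := by
    have := (hσ.isSymmSndFDerivAt (n := ω) (by simp)) u w
    exact this
  have hflat := hC p (σ 0) (mem_extChartAt_target p) (fderiv ℂ σ 0 u) (fderiv ℂ σ 0 w)
  have e1 := hderiv u w
  have e2 := hderiv w u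
  have hx : Ω (σ 0) (fderiv ℂ σ 0 u) = x := (hform u).self_of_nhds.trans hu
  have hy : Ω (σ 0) (fderiv ℂ σ 0 w) = y := (hform w).self_of_nhds.trans hw
  let br0 : LieAlg 𝔤 G → LieAlg 𝔤 G → LieAlg 𝔤 G := fun a b => ⁅a, b⁆
  let br : 𝔤 → 𝔤 → 𝔤 := br0
  have hflat2 : fderiv ℂ Ω (σ 0) (fderiv ℂ σ 0 u) (fderiv ℂ σ 0 w) -
      fderiv ℂ Ω (σ 0) (fderiv ℂ σ 0 w) (fderiv ℂ σ 0 u) +
      br (Ω (σ 0) (fderiv ℂ σ 0 u)) (Ω (σ 0) (fderiv ℂ σ 0 w)) = 0 := hflat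
  rw [hx, hy] at hflat2
  rw [hsymm] at e1
  have e3 : fderiv ℂ Ω (σ 0) (fderiv ℂ σ 0 u) (fderiv ℂ σ 0 w) -
      fderiv ℂ Ω (σ 0) (fderiv ℂ σ 0 w) (fderiv ℂ σ 0 u) = 0 := by
    have := e1.trans e2.symm
    exact sub_eq_zero.2 (add_right_cancel this)
  rw [e3, zero_add] at hflat2
  exact hflat2

end Main

end Pool.Agent.W490.Flat
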