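import Pool.Agent.W490.Flat.NoFlat
import Pool.Agent.H194R3.Cartan.Group

set_option autoImplicit false
set_option linter.unusedSectionVars false

/-! # Complex tori carry no `(G, X)`-structure for the affine group acting on itself -/

open scoped Manifold ContDiff Topology
open Set Pool.Agent.H194R3.Cartan

namespace Pool.Agent.W490.Flat

variable {V : Type} [NormedAddCommGroup V] [NormedSpace ℂ V] [FiniteDimensional ℂ V]
  {Λ : AddSubgroup V} [DiscreteTopology Λ]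

/-- coordinates of a chart -/
noncomputable def tco (Λ : AddSubgroup V) (f : Torus Λ → AffG) (v : V) : ℂ := (f (Torus.proj Λ v)).t
/-- coordinates of a chart -/
noncomputable def bco (Λ : AddSubgroup V) (f : Torus Λ → AffG) (v : V) : ℂ := (f (Torus.proj Λ v)).b

/-- coordinates of a chart -/
noncomputable def pco (Λ : AddSubgroup V) (f : Torus Λ → AffG) (v : V) : ℂ × ℂ :=
  (tco Λ f v, bco Λ f v)

/-- the pull-back of the Maurer-Cartan form -/
noncomputable def mcf (Λ : AddSubgroup V) (f : Torus Λ → AffG) (v w : V) : ℂ × ℂ :=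
  (fderiv ℂ (tco Λ f) v w, Complex.exp (-(tco Λ f v)) * fderiv ℂ (bco Λ f) v w)

lemma proj_add {l : V} (hl : l ∈ Λ) (v : V) : Torus.proj Λ (v + l) = Torus.proj Λ v := by
  rw [Torus.proj_eq_iff]
  have : v - (v + l) = -l := by abel
  rw [this]
  exact neg_mem hl

lemma mcf_add (f : Torus Λ → AffG) {l : V} (hl : l ∈ Λ) (v w : V) :
    mcf Λ f (v + l) w = mcf Λ f v w := by
  have h1 : ∀ u, tco Λ f (u + l) = tco Λ f u := fun u => by simp only [tco, proj_add hl]
  have h2 : ∀ u, bco Λ f (u + l) = bco Λ f u := fun u => by simp only [bco, proj_add hl]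
  have h3 : fderiv ℂ (tco Λ f) (v + l) = fderiv ℂ (tco Λ f) v := by
    rw [← fderiv_comp_add_right]
    congr 1
    ext u; exact h1 u
  have h4 : fderiv ℂ (bco Λ f) (v + l) = fderiv ℂ (bco Λ f) v := by
    rw [← fderiv_comp_add_right]
    congr 1
    ext u; exact h2 u
  simp only [mcf, h1, h3, h4]

lemma contDiffAt_chart {f : Torus Λ → AffG} {v : V}
    (hf : ContMDiffAt 𝓘(ℂ, V) 𝓘(ℂ, ℂ × ℂ) ω f (Torus.proj Λ v)) :
    ContDiffAt ℂ ω (pco Λ f) v := by
  rw [← contMDiffAt_iff_contDiffAt]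
  exact ContMDiffAt.comp v hf (contMDiff_proj Λ v)

lemma contDiffAt_tco {f : Torus Λ → AffG} {v : V}
    (hf : ContMDiffAt 𝓘(ℂ, V) 𝓘(ℂ, ℂ × ℂ) ω f (Torus.proj Λ v)) :
    ContDiffAt ℂ ω (tco Λ f) v := (contDiffAt_chart hf).fst

lemma contDiffAt_bco {f : Torus Λ → AffG} {v : V}
    (hf : ContMDiffAt 𝓘(ℂ, V) 𝓘(ℂ, ℂ × ℂ) ω f (Torus.proj Λ v)) :
    ContDiffAt ℂ ω (bco Λ f) v := (contDiffAt_chart hf).snd

lemma mcf_congr {f f' : Torus Λ → AffG} {v : V} (g : AffG)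
    (hf : ContMDiffAt 𝓘(ℂ, V) 𝓘(ℂ, ℂ × ℂ) ω f (Torus.proj Λ v))
    (h : ∀ᶠ x in 𝓝 (Torus.proj Λ v), f' x = g • f x) (w : V) :
    mcf Λ f' v w = mcf Λ f v w := by
  have h0 : ∀ᶠ u in 𝓝 v, f' (Torus.proj Λ u) = g * f (Torus.proj Λ u) :=
    (Torus.continuous_proj Λ).continuousAt.eventually h
  have h1 : tco Λ f' =ᶠ[𝓝 v] fun u => g.t + tco Λ f u := by
    filter_upwards [h0] with u hu
    simp only [tco, hu, AffG.mul_t]
  have h2 : bco Λ f' =ᶠ[𝓝 v] fun u => g.b + Complex.exp g.t * bco Λ f u := by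
    filter_upwards [h0] with u hu
    simp only [bco, hu, AffG.mul_b]
  have ht : DifferentiableAt ℂ (tco Λ f) v := (contDiffAt_tco hf).differentiableAt (by simp)
  have hb : DifferentiableAt ℂ (bco Λ f) v := (contDiffAt_bco hf).differentiableAt (by simp)
  have h3 : fderiv ℂ (tco Λ f') v = fderiv ℂ (tco Λ f) v := by
    rw [h1.fderiv_eq, fderiv_const_add]
  have h4 : fderiv ℂ (bco Λ f') v = Complex.exp g.t • fderiv ℂ (bco Λ f) v := by
    rw [h2.fderiv_eq, fderiv_const_add, fderiv_const_mul hb]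
  simp only [mcf, h3, h4, h1.self_of_nhds]
  simp only [_root_.smul_apply, smul_eq_mul, Prod.mk.injEq, true_and]
  rw [← mul_assoc, ← Complex.exp_add]
  congr 2
  ring

theorem no_gxStructure [CompactSpace (Torus Λ)] :
    IsEmpty (GXStructure AffG (ℂ × ℂ) AffG V (Torus Λ)) := by
  refine ⟨fun 𝒜 => ?_⟩
  choose c hc hm using 𝒜.cover
  have hdiff : ∀ (m m' : Torus Λ), m' ∈ (c m).1 →
      ContMDiffAt 𝓘(ℂ, V) 𝓘(ℂ, ℂ × ℂ) ω (c m).2 m' := fun m m' h =>
    (𝒜.biholomorphic (c m) (hc m) ⟨m', h⟩).contMDiffAt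
  let F : V → V → ℂ × ℂ := fun w v => mcf Λ (c (Torus.proj Λ v)).2 v w
  have hloc : ∀ (m : Torus Λ) (v w : V), Torus.proj Λ v ∈ (c m).1 →
      F w v = mcf Λ (c m).2 v w := by
    intro m v w hv
    obtain ⟨g, hg⟩ := 𝒜.transition (c m) (hc m) (c (Torus.proj Λ v)) (hc _) (Torus.proj Λ v)
      ⟨hv, hm _⟩
    exact mcf_congr g (hdiff m _ hv) hg w
  have hper : ∀ w v, ∀ l ∈ Λ, F w (v + l) = F w v := by
    intro w v l hl
    simp only [F]
    rw [mcf_add _ hl, proj_add hl]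
  have hnear : ∀ v : V, ∀ᶠ u in 𝓝 v, Torus.proj Λ u ∈ (c (Torus.proj Λ v)).1 := fun v =>
    (Torus.continuous_proj Λ).continuousAt.preimage_mem_nhds
      ((𝒜.isOpen _ (hc _)).mem_nhds (hm _))
  have hFd : ∀ w, Differentiable ℂ (F w) := by
    intro w v
    set f := (c (Torus.proj Λ v)).2 with hf
    have h1 : F w =ᶠ[𝓝 v] fun u => mcf Λ f u w := by
      filter_upwards [hnear v] with u hu
      exact hloc _ u w hu
    have ht := contDiffAt_tco (hdiff _ _ (hm (Torus.proj Λ v)))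
    have hb := contDiffAt_bco (hdiff _ _ (hm (Torus.proj Λ v)))
    have ht1 : ContDiffAt ℂ 1 (fderiv ℂ (tco Λ f)) v := ht.fderiv_right (m := 1) (by simp)
    have hb1 : ContDiffAt ℂ 1 (fderiv ℂ (bco Λ f)) v := hb.fderiv_right (m := 1) (by simp)
    have h2 : DifferentiableAt ℂ (fun u => mcf Λ f u w) v := by
      unfold mcf
      apply DifferentiableAt.prodMk
      · exact (ht1.differentiableAt (by simp)).clm_apply (differentiableAt_const w)
      · apply DifferentiableAt.mul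
        · exact (ht.differentiableAt (by simp)).neg.cexp
        · exact (hb1.differentiableAt (by simp)).clm_apply (differentiableAt_const w)
    exact h2.congr_of_eventuallyEq h1
  have hconst : ∀ w u v, F w u = F w v := fun w u v => const_of_periodic Λ (hFd w) (hper w) u v
  -- the chart at the origin
  set m₀ := Torus.proj Λ 0 with hm₀
  set f := (c m₀).2 with hf
  have ht := contDiffAt_tco (hdiff m₀ m₀ (hm m₀))
  have hb := contDiffAt_bco (hdiff m₀ m₀ (hm m₀))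
  rw [← hf] at ht hb
  have hform : ∀ w : V, ∀ᶠ v in 𝓝 (0 : V), mcf Λ f v w = F w 0 := by
    intro w
    filter_upwards [hnear 0] with v hv
    rw [← hloc m₀ v w hv, hconst w v 0]
  have hb' : ∀ w : V, ∀ᶠ v in 𝓝 (0 : V),
      fderiv ℂ (bco Λ f) v w = Complex.exp (tco Λ f v) * (F w 0).2 := by
    intro w
    filter_upwards [hform w] with v hv
    rw [← hv]
    simp only [mcf]
    rw [← mul_assoc, ← Complex.exp_add]
    simp
  have htd : DifferentiableAt ℂ (tco Λ f) 0 := ht.differentiableAt (by simp)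
  have hbd : DifferentiableAt ℂ (bco Λ f) 0 := hb.differentiableAt (by simp)
  have hb2 : DifferentiableAt ℂ (fderiv ℂ (bco Λ f)) 0 :=
    (hb.fderiv_right (m := 1) (by simp)).differentiableAt (by simp)
  have hsecond : ∀ u w : V, fderiv ℂ (fderiv ℂ (bco Λ f)) 0 u w =
      Complex.exp (tco Λ f 0) * (F u 0).1 * (F w 0).2 := by
    intro u w
    have h1 : HasFDerivAt (fun v => fderiv ℂ (bco Λ f) v w)
        ((ContinuousLinearMap.apply ℂ ℂ w).comp (fderiv ℂ (fderiv ℂ (bco Λ f)) 0)) 0 :=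
      (ContinuousLinearMap.apply ℂ ℂ w).hasFDerivAt.comp 0 hb2.hasFDerivAt
    have h2 : HasFDerivAt (fun v => Complex.exp (tco Λ f v) * (F w 0).2)
        ((F w 0).2 • (Complex.exp (tco Λ f 0) • fderiv ℂ (tco Λ f) 0)) 0 :=
      htd.hasFDerivAt.cexp.mul_const _
    have h3 := h1.unique (h2.congr_of_eventuallyEq (hb' w))
    have h4 := congrArg (fun L : V →L[ℂ] ℂ => L u) h3
    simp only [ContinuousLinearMap.comp_apply, ContinuousLinearMap.apply_apply,
      _root_.smul_apply, smul_eq_mul] at h4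
    rw [h4]
    have h5 : fderiv ℂ (tco Λ f) 0 u = (F u 0).1 := by
      have := (hform u).self_of_nhds
      rw [← this]
      rfl
    rw [h5]
    ring
  have hsymm : ∀ u w : V, (F u 0).1 * (F w 0).2 = (F w 0).1 * (F u 0).2 := by
    intro u w
    have h1 := (hb.isSymmSndFDerivAt (n := ω) (by simp)) u w
    rw [hsecond, hsecond] at h1
    have h2 := Complex.exp_ne_zero (tco Λ f 0)
    have h3 : Complex.exp (tco Λ f 0) * ((F u 0).1 * (F w 0).2) =
        Complex.exp (tco Λ f 0) * ((F w 0).1 * (F u 0).2) := by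
      linear_combination h1
    exact mul_left_cancel₀ h2 h3
  -- surjectivity
  have hsurj : ∀ z : ℂ × ℂ, ∃ w : V, F w 0 = z := by
    intro z
    have hld := 𝒜.biholomorphic (c m₀) (hc m₀) ⟨m₀, hm m₀⟩
    let Φ := hld.mfderivToContinuousLinearEquiv (by simp)
    have hΦ : ∀ w, Φ w = mfderiv 𝓘(ℂ, V) 𝓘(ℂ, ℂ × ℂ) (c m₀).2 m₀ w := fun w => rfl
    have hcomp : mfderiv 𝓘(ℂ, V) 𝓘(ℂ, ℂ × ℂ) (f ∘ Torus.proj Λ) 0 =
        (mfderiv 𝓘(ℂ, V) 𝓘(ℂ, ℂ × ℂ) f m₀).comp (mfderiv 𝓘(ℂ, V) 𝓘(ℂ, V) (Torus.proj Λ) 0) :=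
      mfderiv_comp 0 ((hdiff m₀ m₀ (hm m₀)).mdifferentiableAt (by simp))
        ((contMDiff_proj Λ 0).mdifferentiableAt (by simp))
    have hcd : DifferentiableAt ℂ (pco Λ f) 0 :=
      (contDiffAt_chart (hdiff m₀ m₀ (hm m₀))).differentiableAt (by simp)
    have hpair : fderiv ℂ (pco Λ f) 0 =
        (fderiv ℂ (tco Λ f) 0).prod (fderiv ℂ (bco Λ f) 0) :=
      (htd.hasFDerivAt.prodMk hbd.hasFDerivAt).fderiv
    have hmf : mfderiv 𝓘(ℂ, V) 𝓘(ℂ, ℂ × ℂ) (f ∘ Torus.proj Λ) 0 =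
        fderiv ℂ (pco Λ f) 0 :=
      mfderiv_eq_fderiv
    refine ⟨Φ.symm ((z.1, Complex.exp (tco Λ f 0) * z.2) : ℂ × ℂ), ?_⟩
    set w : V := Φ.symm ((z.1, Complex.exp (tco Λ f 0) * z.2) : ℂ × ℂ) with hw
    have h1 : mfderiv 𝓘(ℂ, V) 𝓘(ℂ, ℂ × ℂ) f m₀ w = (z.1, Complex.exp (tco Λ f 0) * z.2) := by
      rw [← hΦ]
      exact Φ.apply_symm_apply _
    have h2 : (fderiv ℂ (pco Λ f) 0) w =
        (z.1, Complex.exp (tco Λ f 0) * z.2) := by
      rw [← hmf, hcomp, mfderiv_proj]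
      exact h1
    rw [hpair] at h2
    have h3 : fderiv ℂ (tco Λ f) 0 w = z.1 := congrArg Prod.fst h2
    have h4 : fderiv ℂ (bco Λ f) 0 w = Complex.exp (tco Λ f 0) * z.2 := congrArg Prod.snd h2
    rw [← (hform w).self_of_nhds]
    apply Prod.ext
    · exact h3
    · simp only [mcf]
      rw [h4, ← mul_assoc, ← Complex.exp_add]
      simp
  obtain ⟨u, hu⟩ := hsurj (1, 0)
  obtain ⟨w, hw⟩ := hsurj (0, 1)
  have := hsymm u w
  rw [hu, hw] at this
  simp at this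

end Pool.Agent.W490.Flat
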